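import Pool.Agent.X227.UP.NCGen

/-!
# The noncommutative variational Hodge conjecture for all fibre powers: finitely many families matter

Let `S` be a smooth connected complex variety, `k` an algebraic closure of its function field, and `𝒱`
a class of smooth projective varieties over `k` closed under products; they are the geometric generic
members of smooth projective families over finite coverings of open parts of `S`. `W` is the singular
cohomology of a very general member with coefficients in `ℂ` (any Weil cohomology theory on `𝒱` with
algebraically closed coefficients is allowed), `Γ` the fundamental group with its monodromy action
(`GaloisData`, with `χ = 1`), and `FamData` records the rational structure and, for a special member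
over a point `0`, the rational classes `special j` of degree `2 j` whose parallel transport to the
member over `0` is the class of an algebraic cycle. They contain the algebraic classes, and are
preserved by products, pull-backs and push-forwards, since cycles and the graphs of morphisms
specialize.

Let `𝒞` be an `S`-linear admissible subcategory of `D_perf(Y)`, for a family `Y → S`. The projection
functor onto `𝒞` gives an idempotent `e` in `K_0(Y × Y)_ℚ` on the geometric generic member, and by the
Chern character multiplied by the square root of the Todd class the class of a cycle of mixed
codimension whose operator on the cohomology is idempotent (`Projector`). For the fibre product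
`P ×_S Y`, `P` the product of the `X i`, `i` in the list `L` (`prodList X Y L`), `overOp X e L` is the
operator of the correspondence `1 × e`, and `NCVar` is the conjecture for `D_perf(P) ⊠_S 𝒞`: each flat
section (over a finite covering of `S`) of `K_0^top` of this family of categories which is algebraic
on the member over `0` is algebraic on the geometric generic member (so on all members).

Let `X i` be any collection of families, which may be infinite: `X i` is of odd dimension,
homological and numerical equivalence coincide on it, the transcendental cohomology `T i` (the
orthogonal complement of all algebraic classes of the geometric generic member) is in the middle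
degree (`OddMiddle`), the monodromy group acts irreducibly on the Lie algebra `sp(T i)` of the
operators on `T i` which are skew for the intersection form, some element of it has two eigenvalues on
`T i` whose quotient is not a root of unity, and these adjoint representations are pairwise not
isomorphic (`BigFamily`): families of curves, of hypersurfaces or of complete intersections of odd
dimension with big monodromy. Let `Z` be ANY family.

The theorem: there is ONE finite set `B` of indices such that for ALL special members, ALL fibre powers
`Z^(n+1)` and ALL `S`-linear admissible subcategories `𝒞` of `D_perf(Z^(n+1))` and all fibre products
`P` of powers of the `X i`: the conjecture holds for `D_perf(P) ⊠ 𝒞` if and only if it holds for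
`D_perf(P') ⊠ 𝒞` for the subproducts `P'` of `P` with `i ∈ B` such that for some degree `m` of the right
parity the product of the numbers (exponent of `X i`) + 1 and the sum of the `dim T i`, over the `i`
which occur, are at most the Betti number `b_m(Z^(n+1))` (`SmallDim`).

The set `B` is bounded: `∑_{i ∈ B} dim sp(T i) ≤ b ^ 2` where `b` is the dimension of any sum of
cohomology groups `H^m(Z)`, `m ∈ S`, which generates the cohomology algebra of `Z` (`GenBound`); in
particular `b = dim H(Z)` is possible for all `Z`, and `b = 2 g` if `Z` is a family of abelian varieties
of dimension `g`. No `i ∈ B` is separated from `Z` by an element of the monodromy group (`MonApart`).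

The idea of the proof: if the factor `X i` matters for some fibre power of `Z` then `sp(T i)` acts by
derivations of `H(Z^(n+1))` which can be chosen to commute with all endomorphisms of `Z^(n+1)`, in
particular with the permutations of the factors; so they are determined by their restriction to the
generators of the cohomology of one factor `Z`, and these restrictions are linearly independent for
the different `i`. The monodromy representation on `H(Z)` need not be semisimple.
-/

open CategoryTheory AlgebraicGeometry

universe u

namespace Pool.Agent.Results.MP_298761_ag.AllFibrePowers

open Pool.Agent.H914 Pool.Agent.H914.VarClass Pool.Agent.H914.VarClass.Obj Pool.Agent.Y132.AH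
  Pool.Agent.X227.NP Pool.Agent.X227.UP

variable {k : Type u} [Field k] {𝒱 : VarClass k} {ops : CycleOps 𝒱}

theorem result (W : WeilCohomology.{u, 0} ops) [IsAlgClosed W.K] {Γ : Type} [Group Γ]
    (G : GaloisData W Γ) {ι : Type} [DecidableEq ι] (X : ι → 𝒱.Obj)
    (hX : ∀ i, OddMiddle W (X i)) (hG : BigFamily G X) (Z : 𝒱.Obj) :
    ∃ B : Finset ι, GenBound W X Z B ∧ (∀ i ∈ B, ¬MonApart G (X i) Z) ∧
      ∀ (D : FamData W) (n : ℕ) (e : W.H ((powN Z n).prod (powN Z n))), Projector (powN Z n) e →
        ∀ L : List ι, NCVar D G (prodList X (powN Z n) L) (overOp X e L) ↔
          ∀ L' : List ι, L'.Sublist L → SmallDim W X (powN Z n) B L' →
            NCVar D G (prodList X (powN Z n) L') (overOp X e L') :=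
  ncv_gen G Z hX hG

end Pool.Agent.Results.MP_298761_ag.AllFibrePowers
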