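import Mathlib
import Pool.Agent.X311.Vh4

/-!
# The noncommutative variational Hodge conjecture for families of K3 surfaces times any category

Let `S` be a smooth connected variety, `X → S` a family of K3 surfaces (or of cubic fourfolds, or of
any smooth projective varieties whose cohomology is spanned by classes which are algebraic on all
fibres and by a variation of Hodge structure of K3 type), `Y → S` ANY family of smooth projective
varieties, and `𝒞` an `S`-linear admissible subcategory of `D_perf(Y)`. The cohomology of the fibres is
trivialized over the universal covering `U` of `S`: it is `ℚ ^ s ⊕ ℚ ^ n` and `ℚ ^ v`, where `ℚ ^ s` has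
a basis of classes which are algebraic on all fibres of `X` and `ℚ ^ n`, with the intersection form `Q`
and the periods `ω u`, is the transcendental lattice of the fibre at a very general point `u₀`. For K3
surfaces `n = 22 - ρ` where `ρ` is the Picard number of the fibre at `u₀`. By the Chern character
multiplied by the square root of the relative Todd class, the topological K-theory with rational
coefficients of the fibre product `X ^ m × Y` consists of the classes `t J d` in
`(ℚ ^ s ⊕ ℚ ^ n) ⊗ ... ⊗ (ℚ ^ s ⊕ ℚ ^ n) ⊗ ℚ ^ v` (here the even cohomology of `Y` may be taken), and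
that of `𝒞` is the range of the idempotent `e` on `ℚ ^ v` given by the projection functor, a
Fourier-Mukai functor: it preserves algebraic classes, Hodge classes and flat sections
(`IsProjector`). The global sections over `S` are the invariants of the monodromy group.

Suppose that `X` has more than `n / 2 - 1` moduli relative to `Y` at `u₀`: this is the rank of the
period map of `X` at `u₀` in the directions in which the Hodge structure of `Y` is constant. For
instance `Y` is one fixed variety and `X` has more than `n / 2 - 1` moduli, or `S = S' × S''` with such
a family `X` over `S'` and any family `Y` over `S''`. (The bound is sharp: it excludes the families of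
K3 surfaces with multiplication by a CM field, with up to `n / 2 - 1` moduli.)

**Theorem.** Let `𝒞'` be an `S`-linear admissible subcategory of `D_perf(X ^ m) ⊠ 𝒞` (for example an
admissible subcategory of `D_perf(X ^ m × Y)` if `𝒞 = D_perf(Y)`, or the product of `m` Kuznetsov
components of cubic fourfolds and `𝒞`).

(1) Each flat section of the topological K-theory of `𝒞'` over `U` which is everywhere a Hodge class
is the projection of a combination of products of algebraic classes in `ℚ ^ s` on some factors `X`, of
the transcendental parts of the diagonals on pairs of other factors `X`, of at most one determinant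
of `ℚ ^ n` on `n` other factors, and of a flat class of `𝒞` which is everywhere a Hodge class.

(2) Suppose that `m < n`, or that some element of the monodromy acts on `ℚ ^ n` with determinant `-1` and
on the cohomology of `Y` without the eigenvalue `-1`. (This is so, for ALL `m`, if `Y` is one fixed
variety and the family `X` has a monodromy element of determinant `-1`, for example the reflection
given by a fibre with one node, or if `Y` has good reduction or unipotent monodromy there.) Then the
noncommutative variational Hodge conjecture for `𝒞` at the point `u₁` implies the noncommutative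
variational Hodge conjecture for all these `𝒞'` at the point `u₁`. It is equivalent to it for
`𝒞' = D_perf(X ^ m) ⊠ 𝒞`. In particular it holds for `𝒞'` if `Y` is one fixed variety.

Of algebraic cycles only two properties are used, which are the fields of `IsCycleSystem`. That a global
section which is algebraic at `u₁` is everywhere a Hodge class is Deligne's theorem of the fixed
part, and stated as known in the problem; it is part of the definition of `Conjecture` here.

The proof. Let `t` be a flat class which is a Hodge class on all fibres, and let `L` be the complex Lie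
algebra of the skew matrices which kill `t` when they act on the factors `X` (and trivially on `Y`). It
is stable under all automorphisms of the complex numbers and under the commutator with the Hodge
operator at `u₀`. Along a curve on which the Hodge structure of `Y` is constant the differences of the
Hodge operators of `X` are in `L`, and the derivative of their component of type `(-1, 1)` gives
vectors of a fixed subspace; as there are more than `n / 2 - 1` independent ones, `L` contains all the
skew matrices, and the first fundamental theorem gives (1). For (2) the components of `t` on `Y` are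
recovered by algebraic operations: since `(NᵀN) Q⁻¹ (NᵀN) = Q` for a real matrix `N`, no nonzero
combination of tensor products of `Q⁻¹` is orthogonal to all tensor products of `Q`.
-/

namespace Pool.Agent.Results.MP_298761_ag.FamiliesOfK3Times

open Matrix Pool.Agent.TH131.GHC Pool.Agent.TH504.VY Pool.Agent.X311 Pool.Agent.X311.K3

/-- The projector `P` of an admissible subcategory of the family of categories `D_perf` with the
topological K-theory `W`, the Hodge classes `Hodge u` and the algebraic classes `Alg u` of the fibres,
and the global sections `Inv`: the projection functor is a Fourier-Mukai functor, with kernel on the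
fibre product, so it acts on `W` by an idempotent `P` which maps algebraic classes to algebraic
classes, Hodge classes to Hodge classes and global sections to global sections. The topological
K-theory of the subcategory is the range of `P`. -/
def IsProjector {U W : Type} [AddCommGroup W] [Module ℚ W] (Inv : W → Prop) (Hodge : U → W → Prop)
    (Alg : U → Submodule ℚ W) (P : W →ₗ[ℚ] W) : Prop :=
  (∀ t, P (P t) = P t) ∧ (∀ t, Inv t → Inv (P t)) ∧ (∀ u t, Hodge u t → Hodge u (P t)) ∧
    ∀ u, ∀ t ∈ Alg u, P t ∈ Alg u

/-- The noncommutative variational Hodge conjecture at the point `u₁` for the admissible subcategory with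
the projector `P`: if a global section `t` of its topological K-theory is everywhere a Hodge class and
at `u₁` the class of an element of its algebraic K-theory (the image by `P` of an algebraic class) then
it is so everywhere. -/
def Conjecture {U W : Type} [AddCommGroup W] [Module ℚ W] (Inv : W → Prop) (Hodge : U → W → Prop)
    (Alg : U → Submodule ℚ W) (P : W →ₗ[ℚ] W) (u₁ : U) : Prop :=
  ∀ t, P t = t → Inv t → (∀ u, Hodge u t) → t ∈ (Alg u₁).map P → ∀ u, t ∈ (Alg u).map P

/-- The subcategory with the projector `P` is contained in the product of `D_perf(X ^ m)` and the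
subcategory of `D_perf(Y)` with the projector `e`: so this holds for the classes. -/
def IsContainedIn {n s v m : ℕ} (P : ((Fin m → Fin s ⊕ Fin n) → Fin v → ℚ) →ₗ[ℚ]
    ((Fin m → Fin s ⊕ Fin n) → Fin v → ℚ)) (e : (Fin v → ℚ) →ₗ[ℚ] (Fin v → ℚ)) : Prop :=
  ∀ t J, e (P t J) = P t J

/-- The class `y` in the cohomology of `Y` is invariant under the monodromy. -/
def IsInvariantOn {n v : ℕ} (M : Set (Matrix (Fin n) (Fin n) ℚ × Matrix (Fin v) (Fin v) ℚ))
    (y : Fin v → ℚ) : Prop :=
  ∀ g ∈ M, g.2 *ᵥ y = y

/-- **The noncommutative variational Hodge conjecture for families of K3 surfaces times any category.**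
Let `F` be a family of Hodge structures of K3 type on `ℚ ^ n` over `U`, where the period at `u₀` is not
in a proper rational subspace, and `V` any family of varieties `Y` over `U`, such that `F` has more
than `n / 2 - 1` moduli at `u₀` relative to `V`. Let `𝒞` be admissible in `D_perf(Y)`, with the projector
`e`, and `𝒞'` admissible in `D_perf(X ^ m) ⊠ 𝒞`, with the projector `P`. Then (1) flat classes of `𝒞'`
which are everywhere Hodge classes are projections of combinations of products of algebraic classes,
diagonals, at most one determinant, and flat classes of `𝒞` which are everywhere Hodge classes; (2) if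
`m < n` or there is an element of the monodromy of determinant `-1` on `X` and without the eigenvalue
`-1` on `Y`, the conjecture for `𝒞` implies the conjecture for `𝒞'`, and it is equivalent to it if
`𝒞' = D_perf(X ^ m) ⊠ 𝒞`. -/
theorem result {U : Type} {n v : ℕ} (F : Family U n) (V : U → Coh v) {u₀ : U}
    (hT : LinearIndependent ℚ (F.ω u₀)) (hD : n < 2 * F.moduli V u₀ + 2) (s m : ℕ)
    (M : Set (Matrix (Fin n) (Fin n) ℚ × Matrix (Fin v) (Fin v) ℚ))
    (hM : ∀ g ∈ M, g.1.transpose * F.Q * g.1 = F.Q)
    (Alg : U → Submodule ℚ ((Fin m → Fin s ⊕ Fin n) → Fin v → ℚ))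
    (AlgY : U → Submodule ℚ (Fin v → ℚ)) (hA : F.IsCycleSystem Alg AlgY)
    (e : (Fin v → ℚ) →ₗ[ℚ] (Fin v → ℚ))
    (he : IsProjector (IsInvariantOn M) (fun u => IsHodgeOn (V u)) AlgY e)
    (P : ((Fin m → Fin s ⊕ Fin n) → Fin v → ℚ) →ₗ[ℚ] ((Fin m → Fin s ⊕ Fin n) → Fin v → ℚ))
    (hP : IsProjector (IsInvariant M) (fun u t => F.IsHodgeAt V t u) Alg P)
    (hPe : IsContainedIn P e) :
    (∀ t, P t = t → (∀ u, F.IsHodgeAt V t u) →
      t ∈ (F.standardTimes s m {y | e y = y ∧ ∀ u, IsHodgeOn (V u) y}).map P) ∧
    ((m < n ∨ ∃ g ∈ M, g.1.det = -1 ∧ ∀ y, g.2 *ᵥ y = -y → y = 0) → ∀ u₁ : U,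
      (Conjecture (IsInvariantOn M) (fun u => IsHodgeOn (V u)) AlgY e u₁ →
        Conjecture (IsInvariant M) (fun u t => F.IsHodgeAt V t u) Alg P u₁) ∧
      (0 < s → (∀ t J, P t J = e (t J)) →
        (Conjecture (IsInvariant M) (fun u t => F.IsHodgeAt V t u) Alg P u₁ ↔
          Conjecture (IsInvariantOn M) (fun u => IsHodgeOn (V u)) AlgY e u₁))) := by
  have hfix : ∀ t, P t = t → ∀ J, e (t J) = t J := by
    intro t ht J
    have h1 := hPe t J
    rwa [ht] at h1
  refine ⟨fun t ht hH => ⟨t, ?_, ht⟩, fun hdet u₁ => ?_⟩
  · exact mem_standard_fixed hT hD hH e he.1 (fun y hy u => he.2.2.1 u y (hy u)) (hfix t ht)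
  · have key : Conjecture (IsInvariantOn M) (fun u => IsHodgeOn (V u)) AlgY e u₁ →
        Conjecture (IsInvariant M) (fun u t => F.IsHodgeAt V t u) Alg P u₁ := by
      rintro hC t ht hi hH ⟨t', ht', htt⟩ u
      have h1 : t ∈ Alg u₁ := by
        rw [← htt]
        exact hP.2.2.2 u₁ t' ht'
      refine ⟨t, alg_of hT hD hdet hM hA hi hH h1 e (hfix t ht) ?_ u, ht⟩
      intro y hy hyi hyH hy1 u
      obtain ⟨y', hy', hyy⟩ := hC y hy hyi hyH ⟨y, hy1, hy⟩ u
      rw [← hyy]
      exact he.2.2.2 u y' hy'
    refine ⟨key, fun hs hPP => ⟨?_, key⟩⟩
    rintro hC y hy hyi hyH ⟨y', hy', hyy⟩ u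
    have hy1 : y ∈ AlgY u₁ := by
      rw [← hyy]
      exact he.2.2.2 u₁ y' hy'
    obtain ⟨e', ν, h1, h2, h3⟩ := test_class (F := F) (V := V) (M := M) hs m hyi hyH
    have h4 : P (fun J d => F.pairClass e' ν J * y d) = fun J d => F.pairClass e' ν J * y d := by
      funext J
      rw [hPP]
      have h6 : (fun d => F.pairClass e' ν J * y d) = F.pairClass e' ν J • y := rfl
      rw [h6, e.map_smul, hy]
    obtain ⟨t', ht', htt⟩ := hC _ h4 h1 h2 ⟨_, hA.product_mem u₁ _ _ e' ν y hy1, h4⟩ u
    have h5 : (fun J d => F.pairClass e' ν J * y d) ∈ Alg u := by
      rw [← htt]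
      exact hP.2.2.2 u t' ht'
    have h6 := hA.integral_mem u _ h5 _ _ e' ν
    rw [h3] at h6
    exact ⟨y, h6, hy⟩

end Pool.Agent.Results.MP_298761_ag.FamiliesOfK3Times
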