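import Pool.Agent.X264.HN.Two

/-!
# The noncommutative variational Hodge conjecture: sections over powers and endomorphisms

`C` is an additive rigid symmetric monoidal category with a symmetric monoidal additive functor `R` to
finite dimensional super vector spaces over a field `K` of characteristic zero, and with two notions
`S` and `T` of algebraic classes on the realisations, compatible with morphisms, products, sums and
scalars. For the problem `C` is the category of relative noncommutative motives of the `S`-linear
admissible subcategories `𝒞` of the categories of perfect complexes on smooth proper `X → S`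
(morphisms are the rational `K_0` of the products over `S`), `K = ℚ`, `R` is the rational topological
K-theory of the fibre at the point `0`, an element of `S.A X` is the fibre at `0` of a global section
of the local system which is algebraic at `0`, and an element of `T.A X` is the fibre at `0` of a
global section which is algebraic at the point `s`. Then `Spreads S T X` says: the conjecture holds
for `X` and the points `0` and `s`. The dual of the motive of `𝒞` is the motive of the opposite
category.

Theorem. Let `X` be an object of `C`.
(1) If some section of `X` which is algebraic at `0` and at `s` has nonzero pairing with a section of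
the dual which is algebraic at `0`, and if the conjecture holds for `X ⊗ Xᘁ`, that is, for the
endomorphisms of `X`, then it holds for `X`.
(2) If some sections of `X` and of the dual which are algebraic at `0` have nonzero pairing, and if the
conjecture holds for `X ^ n` and for `Xᘁ ^ m`, where `n > 0` and `m` are coprime, then it holds
for `X`.
(3) If the sections `a` of `X` and `y` of the dual are algebraic at `0` and have nonzero pairing, if
`a ^ n` and `y ^ m` are algebraic at `s`, where `n > 0` and `m` are coprime, and if the conjecture
holds for `X ⊗ Xᘁ`, then it holds for `X`.
-/

set_option autoImplicit false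

open CategoryTheory Limits MonoidalCategory

namespace Pool.Agent.Results.MP_298761_ag.SectionsOnPowers

open Pool.Agent.Y112.SR Pool.Agent.Y112.KD Pool.Agent.X264.DN Pool.Agent.X264.WN
  Pool.Agent.X264.HN

universe v u w

theorem result {C : Type u} [Category.{v} C] [Preadditive C] [MonoidalCategory C]
    [SymmetricCategory C] [RightRigidCategory C] {K : Type w} [Field K] [CharZero K]
    (R : SuperRealisation C K) (S T : ClassTheory R) (X : C) :
    (HasCommonPair S T X → Spreads S T (X ⊗ Xᘁ) → Spreads S T X) ∧
    (HasPair S X → ∀ n m : ℕ, 0 < n → Nat.Coprime n m → Spreads S T (tp X n) →
      Spreads S T (tp Xᘁ m) → Spreads S T X) ∧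
    (∀ (a : Sp R X) (y : Sp R Xᘁ) (n m : ℕ), a ∈ S.A X → y ∈ S.A Xᘁ → pair y a ≠ 0 → 0 < n →
      Nat.Coprime n m → pw a n ∈ T.A (tp X n) → pw y m ∈ T.A (tp Xᘁ m) →
      Spreads S T (X ⊗ Xᘁ) → Spreads S T X) :=
  ⟨fun h0 h => spreads_of_end S T h h0,
    fun h0 _ _ hn hnm h1 h2 => spreads_of_coprime S T h0 hn hnm h1 h2,
    fun _ _ _ _ ha hy hya hn hnm h1 h2 h => spreads_of_pair S T h ha hy hya hn hnm h1 h2⟩

end Pool.Agent.Results.MP_298761_ag.SectionsOnPowers
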