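import Pool.Agent.X227.NP.Var

/-!
# The noncommutative variational Hodge conjecture for `P ×_S Z`, `P` a fibre product of powers of
# families with large symplectic monodromy

Let `S` be a smooth connected complex variety with a point `0`, `k` an algebraic closure of its
function field, and `𝒱` the class of the smooth projective varieties over `k` which extend to a smooth
projective family over a finite covering of `S` (or of a neighbourhood of `0` in it); they are the
geometric generic members of the families. `W` is the singular cohomology of a very general member
with coefficients in `ℂ` (any Weil cohomology theory on `𝒱` with algebraically closed coefficients is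
allowed), `Γ` the fundamental group of `S` (of the locus where all is defined) with its monodromy
action (`GaloisData`, with `χ = 1`), and `FamData` records the rational structure and the rational
classes `special j` of degree `2 j` whose parallel transport to the member over `0` is the class of an
algebraic cycle. They contain the algebraic classes, and are preserved by products, pull-backs and
push-forwards, since cycles and the graphs of morphisms specialize.

Let `𝒞` be an `S`-linear admissible subcategory of `D_perf(Z)`, for a family `Z → S`. The projection
functor onto `𝒞` gives an idempotent `e` in `K_0(Z × Z)_ℚ` on the geometric generic member, which is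
identified with `CH(Z × Z)_ℚ` by the Chern character multiplied by the square root of the Todd class.
Here only its cohomology class is used: it is the class of a cycle of mixed codimension such that the
operator `baseOp e : y ↦ pr_2_* (e * pr_1^* y)` is idempotent (`Projector`). It commutes with the
monodromy after a finite covering. For the fibre product `P ×_S Z` of `Z` and of the `X i`, `i` in the
list `L` (`prodList X Z L`), `overOp X e L` is the operator of the correspondence `1 × e`, and
`NCVar` is the conjecture for `D_perf(P) ⊠_S 𝒞`: each flat section (over a finite covering of `S`) of
`K_0^top` of this family of categories, that is each sum `y` of rational classes of degrees `2 j`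
which are invariant under a subgroup of finite index of the monodromy group, such that `y` is fixed by
`1 × e`, which is algebraic on the member over `0` is algebraic on the geometric generic member (so
it is algebraic on all members, by specialization).

Let `X i` be any collection of families, which may be infinite: `X i` is of odd dimension,
homological and numerical equivalence coincide on it, the transcendental cohomology `T i` (the
orthogonal complement of all algebraic classes of the geometric generic member) is in the middle
degree (`OddMiddle`), the monodromy group acts irreducibly on the Lie algebra of the operators on
`T i` which are skew for the intersection form, some element of it has two eigenvalues on `T i`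
whose quotient is not a root of unity, and these adjoint representations are pairwise not isomorphic
(`BigFamily`). For instance families of curves, hypersurfaces or complete intersections of odd
dimension with Zariski dense monodromy in the symplectic group (Beauville), such as Lefschetz
pencils of hyperplane sections. Let `Z` be ANY family.

(1) There is a finite set `B` of indices with `∑ dim T i ≤ dim H(Z)`, none of them separated from `Z`
by the monodromy, such that for EVERY `S`-linear admissible `𝒞` in `D_perf(Z)` and all fibre products
`P` of powers of the `X i`: the conjecture holds for `D_perf(P) ⊠ 𝒞` if and only if it holds for
`D_perf(P') ⊠ 𝒞` for the subproducts `P'` of `P` with `i ∈ B` such that for some degree `m` of the right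
parity the product of the numbers (exponent of `X i`) + 1 and the sum of the `dim T i`, over the `i`
which occur, are at most the Betti number `b_m` of the members of `Z` (`SmallDim`). So for given `𝒞`
finitely many products decide for infinitely many.

(2) If all `X i` are separated from `Z` by the monodromy (`MonApart`: for some element `g` with two
eigenvalues `a` and `b` on `T i` the cohomology of `Z` is generated by stable pieces on which `a b` is
not the quotient of two eigenvalues of `g`; for example the monodromy of `Z` is finite, or all
quotients of eigenvalues of `g` on each `H^m(Z)` are roots of unity), then for every `S`-linear
admissible subcategory `𝒞` in `D_perf` of any fibre power of `Z` the conjecture for `D_perf(P) ⊠ 𝒞` is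
equivalent to the conjecture for `𝒞`, for all `P`.

(3) If `Z = S` (relative dimension zero) then the conjecture holds for all `P`.

The idea of the proof: as in MP_43e44c_ag.TimesSymplecticType, with the monodromy group instead of
the Mumford-Tate group: the contraction of two factors by the intersection form preserves the classes
which are algebraic on the special member, and it commutes with `1 × e`, so minimal counterexamples
are traceless, and traceless flat classes give subrepresentations of the cohomology of `Z`.
-/

open CategoryTheory AlgebraicGeometry

universe u

namespace Pool.Agent.Results.MP_298761_ag.TimesSymplecticType

open Pool.Agent.H914 Pool.Agent.H914.VarClass Pool.Agent.H914.VarClass.Obj Pool.Agent.Y132.AH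
  Pool.Agent.X227.NP

variable {k : Type u} [Field k] {𝒱 : VarClass k} {ops : CycleOps 𝒱}

theorem result (W : WeilCohomology.{u, 0} ops) [IsAlgClosed W.K] {Γ : Type} [Group Γ]
    (G : GaloisData W Γ) (D : FamData W) {ι : Type} [DecidableEq ι] (X : ι → 𝒱.Obj)
    (hX : ∀ i, OddMiddle W (X i)) (hG : BigFamily G X) (Z : 𝒱.Obj) :
    (∃ B : Finset ι, ∑ i ∈ B, trDim W (X i) ≤ totDim W Z ∧ (∀ i ∈ B, ¬MonApart G (X i) Z) ∧
      ∀ e : W.H (Z.prod Z), Projector Z e → ∀ L : List ι,
        (NCVar D G (prodList X Z L) (overOp X e L) ↔
          ∀ L' : List ι, L'.Sublist L → SmallDim W X Z B L' →
            NCVar D G (prodList X Z L') (overOp X e L'))) ∧
    ((∀ i, MonApart G (X i) Z) → ∀ (n : ℕ) (e : W.H ((powN Z n).prod (powN Z n))),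
      Projector (powN Z n) e → ∀ L : List ι,
        (NCVar D G (prodList X (powN Z n) L) (overOp X e L) ↔
          NCVar D G (powN Z n) (baseOp e))) ∧
    (Z.dim = 0 → ∀ L : List ι, NCVar D G (prodList X Z L) (fun y => y)) :=
  ⟨v_general D G Z hX hG, fun h n e he L => v_separated G D Z hX hG h n e he L,
    fun hZ L => (ncv_iff' D G (roof_id _) (fun _ => rfl)).2 (v_products D G hZ hX hG L)⟩

end Pool.Agent.Results.MP_298761_ag.TimesSymplecticType
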